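import Mathlib
import Pool.Agent.H922R2.OPC.Stubs

/-! CHR: symmetric functions of the conjugates. -/

set_option autoImplicit false

namespace Pool.Agent.H663R5.OPCCHR

open Pool.Agent.H922R2.OPC

section gen

theorem sym {K L : Type} [CommRing K] [CommRing L] [Algebra K L] (A : Subalgebra K L) (n : ℕ)
    (y : Fin n → L)
    (hy : ∀ l, (∏ i, (Polynomial.X - Polynomial.C (y i))).coeff l ∈ A)
    (H : Polynomial A) (l : ℕ) :
    (∏ i, (Polynomial.X - Polynomial.C (Polynomial.aeval (y i) H))).coeff l ∈ A := by
  classical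
  let P : Polynomial (MvPolynomial (Fin n) A) := ∏ i, (Polynomial.X -
    Polynomial.C (Polynomial.aeval (MvPolynomial.X i : MvPolynomial (Fin n) A) H))
  have hsym : (P.coeff l).IsSymmetric := by
    intro e
    have h1 : P.map (MvPolynomial.rename e :
        MvPolynomial (Fin n) A →ₐ[A] MvPolynomial (Fin n) A).toRingHom = P := by
      change Polynomial.map _ (∏ i, _) = _
      rw [Polynomial.map_prod]
      have h2 : ∀ i, (Polynomial.X -
          Polynomial.C (Polynomial.aeval (MvPolynomial.X i : MvPolynomial (Fin n) A) H)).map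
          (MvPolynomial.rename e :
            MvPolynomial (Fin n) A →ₐ[A] MvPolynomial (Fin n) A).toRingHom =
          Polynomial.X - Polynomial.C
            (Polynomial.aeval (MvPolynomial.X (e i) : MvPolynomial (Fin n) A) H) := by
        intro i
        rw [Polynomial.map_sub, Polynomial.map_X, Polynomial.map_C]
        congr 2
        change MvPolynomial.rename e _ = _
        rw [← Polynomial.aeval_algHom_apply, MvPolynomial.rename_X]
      rw [Finset.prod_congr rfl fun i _ => h2 i]
      exact Equiv.prod_comp e (fun i => Polynomial.X - Polynomial.C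
            (Polynomial.aeval (MvPolynomial.X i : MvPolynomial (Fin n) A) H))
    have h3 := congrArg (fun Q => Q.coeff l) h1
    simp only [Polynomial.coeff_map] at h3
    exact h3
  obtain ⟨G, hG⟩ := MvPolynomial.esymmAlgHom_surjective (σ := Fin n) (R := A) (n := n)
    (by simp) ⟨P.coeff l, hsym⟩
  have hG' : P.coeff l = MvPolynomial.aeval
      (fun i : Fin n => MvPolynomial.esymm (Fin n) A (i + 1)) G := by
    have := congrArg Subtype.val hG
    rw [MvPolynomial.esymmAlgHom_apply] at this
    exact this.symm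
  have he : ∀ j : ℕ, j ≤ n → ∃ a : A, algebraMap A L a =
      MvPolynomial.aeval y (MvPolynomial.esymm (Fin n) A j) := by
    intro j hj
    have h1 := Multiset.prod_X_sub_C_coeff ((Finset.univ : Finset (Fin n)).val.map y)
      (k := n - j) (by simp)
    have h2 : Multiset.card ((Finset.univ : Finset (Fin n)).val.map y) = n := by simp
    have h3 : n - (n - j) = j := by omega
    rw [h2, h3, Multiset.map_map] at h1
    have h4 := hy (n - j)
    have h5 : (∏ i, (Polynomial.X - Polynomial.C (y i))) =
        (Multiset.map ((fun t => Polynomial.X - Polynomial.C t) ∘ y) Finset.univ.val).prod := rfl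
    rw [h5, h1] at h4
    rw [MvPolynomial.aeval_esymm_eq_multiset_esymm]
    have h6 : ((-1 : L) ^ j) ∈ A := A.pow_mem (A.neg_mem A.one_mem) j
    have h7 := A.mul_mem h6 h4
    rw [← mul_assoc, ← mul_pow, neg_one_mul, neg_neg, one_pow, one_mul] at h7
    exact ⟨⟨_, h7⟩, rfl⟩
  choose e he' using fun i : Fin n => he (i + 1) (by have := i.isLt; omega)
  have hfin : (∏ i, (Polynomial.X - Polynomial.C (Polynomial.aeval (y i) H))) =
      P.map (MvPolynomial.aeval y : MvPolynomial (Fin n) A →ₐ[A] L).toRingHom := by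
    change _ = Polynomial.map _ (∏ i, _)
    rw [Polynomial.map_prod]
    refine Finset.prod_congr rfl fun i _ => ?_
    rw [Polynomial.map_sub, Polynomial.map_X, Polynomial.map_C]
    congr 2
    change _ = MvPolynomial.aeval y _
    rw [← Polynomial.aeval_algHom_apply, MvPolynomial.aeval_X]
  rw [hfin, Polynomial.coeff_map, hG']
  change MvPolynomial.aeval y _ ∈ A
  have h8 : MvPolynomial.aeval y (MvPolynomial.aeval
      (fun i : Fin n => MvPolynomial.esymm (Fin n) A (i + 1)) G) =
      algebraMap A L (MvPolynomial.aeval e G) := by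
    rw [← MvPolynomial.aeval_algebraMap_apply, ← AlgHom.comp_apply, MvPolynomial.comp_aeval]
    congr 2
    funext i
    exact (he' i).symm
  rw [h8]
  exact (MvPolynomial.aeval e G).2

end gen

section fin

variable (k : Type) [Field k] [IsAlgClosed k] [CharZero k]

theorem algMap (c : k) : algebraMap k (L k) c = HahnSeries.single 0 (Polynomial.C c) := by
  rw [HahnSeries.algebraMap_apply', PowerSeries.algebraMap_apply, HahnSeries.ofPowerSeries_C]
  rfl

theorem rot_single (c : k) (i : ℤ) (a : Polynomial k) :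
    rot c (HahnSeries.single i a) = HahnSeries.single i (Polynomial.C (c ^ i) * a) := by
  ext1
  funext j
  change Polynomial.C (c ^ j) * (HahnSeries.single i a).coeff j = _
  rw [HahnSeries.coeff_single, HahnSeries.coeff_single]
  split_ifs with h
  · subst h; rfl
  · rw [mul_zero]

theorem chr : S_CHR k := by
  intro hRot hEVF _ n f φ ζ hOP h l
  have hev := hEVF n f φ ζ hOP
  obtain ⟨hn, hζ, hprod⟩ := hOP
  let θ : B k →ₐ[k] L k := (ev n φ).comp (MvPolynomial.aeval ![MvPolynomial.X 0, f])
  let A : Subalgebra k (L k) := θ.range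
  have hA0 : tp (-(n : ℤ)) ∈ A := by
    refine ⟨MvPolynomial.X 0, ?_⟩
    change ev n φ (MvPolynomial.aeval _ (MvPolynomial.X 0)) = _
    rw [MvPolynomial.aeval_X, Matrix.cons_val_zero]
    unfold ev
    rw [MvPolynomial.aeval_X, Matrix.cons_val_zero]
  have hA1 : (lam : L k) ∈ A := by
    refine ⟨MvPolynomial.X 1, ?_⟩
    change ev n φ (MvPolynomial.aeval _ (MvPolynomial.X 1)) = _
    rw [MvPolynomial.aeval_X]
    exact hev
  let EH : B k →ₐ[k] Polynomial A :=
    MvPolynomial.aeval ![Polynomial.C ⟨tp (-(n : ℤ)), hA0⟩, Polynomial.X]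
  have hEH : (Polynomial.mapAlgHom A.val).comp EH = evY n := by
    apply MvPolynomial.algHom_ext
    intro i
    rw [AlgHom.comp_apply]
    unfold evY
    rw [MvPolynomial.aeval_X, MvPolynomial.aeval_X]
    fin_cases i
    · simp
    · simp
  have hEH' : ∀ (b : B k) (m : ℕ), (evY n b).coeff m ∈ A := by
    intro b m
    rw [← hEH, AlgHom.comp_apply]
    change ((EH b).map _).coeff m ∈ A
    rw [Polynomial.coeff_map]
    exact ((EH b).coeff m).2
  have hy : ∀ m, (∏ i : Fin n, (Polynomial.X - Polynomial.C (rot (ζ ^ (i : ℕ)) φ))).coeff m ∈ A := by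
    intro m
    rw [← Finset.prod_range (fun i => (Polynomial.X - Polynomial.C (rot (ζ ^ i) φ))), ← hprod,
      Polynomial.coeff_sub, Polynomial.coeff_C]
    refine A.sub_mem (hEH' f m) ?_
    split_ifs
    · exact hA1
    · exact A.zero_mem
  have hrot : ∀ i : Fin n, rot (ζ ^ (i : ℕ)) (ev n φ h) =
      Polynomial.aeval (rot (ζ ^ (i : ℕ)) φ) (EH h) := by
    intro i
    have hz : ζ ^ (i : ℕ) ≠ 0 := pow_ne_zero _ (hζ.ne_zero hn.ne')
    obtain ⟨R, hR⟩ := hRot (ζ ^ (i : ℕ)) hz
    have h1 : R.comp (ev n φ).toRingHom =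
        ((Polynomial.aeval (rot (ζ ^ (i : ℕ)) φ) : Polynomial A →ₐ[A] L k).toRingHom).comp
          EH.toRingHom := by
      apply MvPolynomial.ringHom_ext
      · intro c
        change R (ev n φ (MvPolynomial.C c)) =
          Polynomial.aeval (rot (ζ ^ (i : ℕ)) φ) (EH (MvPolynomial.C c))
        have h2 : ev n φ (MvPolynomial.C c) = algebraMap k (L k) c := (ev n φ).commutes c
        have h3 : EH (MvPolynomial.C c) = algebraMap k (Polynomial A) c := EH.commutes c
        rw [h2, h3, Polynomial.algebraMap_apply, Polynomial.aeval_C, hR, algMap, rot_single,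
          zpow_zero, Polynomial.C_1, one_mul, ← algMap]
        rfl
      · intro j
        change R (ev n φ (MvPolynomial.X j)) =
          Polynomial.aeval (rot (ζ ^ (i : ℕ)) φ) (EH (MvPolynomial.X j))
        rw [hR]
        unfold ev
        simp only [EH]
        rw [MvPolynomial.aeval_X, MvPolynomial.aeval_X]
        fin_cases j
        · simp only [Fin.zero_eta, Matrix.cons_val_zero]
          rw [Polynomial.aeval_C]
          change rot _ (tp (-(n : ℤ))) = tp (-(n : ℤ))
          unfold tp
          rw [rot_single]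
          have h4 : (ζ ^ (i : ℕ)) ^ (-(n : ℤ)) = 1 := by
            rw [zpow_neg, zpow_natCast, ← pow_mul, mul_comm, pow_mul, hζ.pow_eq_one, one_pow,
              inv_one]
          rw [h4, Polynomial.C_1, one_mul]
        · simp
    have h5 := RingHom.congr_fun h1 h
    change R (ev n φ h) = Polynomial.aeval (rot (ζ ^ (i : ℕ)) φ) (EH h) at h5
    rw [← h5, hR]
  have hs := sym A n (fun i => rot (ζ ^ (i : ℕ)) φ) hy (EH h) l
  rw [← Finset.prod_congr rfl (fun i _ => by rw [hrot i] :
    ∀ i ∈ (Finset.univ : Finset (Fin n)), (Polynomial.X - Polynomial.C (rot (ζ ^ (i : ℕ)) (ev n φ h))) =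
      Polynomial.X - Polynomial.C (Polynomial.aeval (rot (ζ ^ (i : ℕ)) φ) (EH h))),
    ← Finset.prod_range (fun i => (Polynomial.X - Polynomial.C (rot (ζ ^ i) (ev n φ h))))] at hs
  obtain ⟨g, hg⟩ := hs
  exact ⟨g, hg.symm⟩

end fin

end Pool.Agent.H663R5.OPCCHR
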