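import Mathlib
import Pool.Agent.H922R2.OPC.Stubs

/-! DIM: order of the pole = dimension of the quotient. -/

set_option autoImplicit false

namespace Pool.Agent.H663R5.OPCDIM

open MvPolynomial Pool.Agent.H922R2.OPC

section lin

variable {k : Type} [Field k] {M P : Type} [AddCommGroup M] [Module k M] [AddCommGroup P]
  [Module k P]

theorem rn (f : M →ₗ[k] P) (s : Submodule k M) [FiniteDimensional k s] :
    Module.finrank k (s.map f) + Module.finrank k (s ⊓ LinearMap.ker f : Submodule k M) =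
      Module.finrank k s := by
  have h := (f.domRestrict s).finrank_range_add_finrank_ker
  have h1 : LinearMap.range (f.domRestrict s) = s.map f := by
    rw [LinearMap.range_domRestrict]
  have h2 : LinearMap.ker (f.domRestrict s) = (LinearMap.ker f).comap s.subtype := rfl
  have h3 : Module.finrank k (s ⊓ LinearMap.ker f : Submodule k M) =
      Module.finrank k ((LinearMap.ker f).comap s.subtype) := by
    rw [← Submodule.map_comap_subtype, Submodule.finrank_map_subtype_eq]
  rw [h1, h2] at h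
  rw [h3]
  exact h

end lin

section lau

variable {k : Type} [Field k]

/-- `Ge w` as a submodule -/
def GeS (k : Type) [Field k] (w : ℤ) : Submodule k (LaurentSeries k) where
  carrier := {h | Ge w h}
  add_mem' := by
    intro a b ha hb i hi
    have h1 := ha i hi
    have h2 := hb i hi
    simp [h1, h2]
  zero_mem' := by
    intro i hi
    simp
  smul_mem' := by
    intro c a ha i hi
    have h1 := ha i hi
    simp [h1]

theorem mem_GeS (w : ℤ) (h : LaurentSeries k) : h ∈ GeS k w ↔ Ge w h := Iff.rfl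

theorem Ge_mono {w v : ℤ} (h : v ≤ w) {a : LaurentSeries k} (ha : Ge w a) : Ge v a :=
  fun i hi => ha i (by omega)

/-- coefficient as a linear map -/
def cf (k : Type) [Field k] (w : ℤ) : LaurentSeries k →ₗ[k] k where
  toFun h := h.coeff w
  map_add' a b := by simp
  map_smul' c a := by simp

theorem GeS_succ (w : ℤ) : GeS k w ⊓ LinearMap.ker (cf k w) = GeS k (w + 1) := by
  ext h
  constructor
  · rintro ⟨h1, h2⟩ i hi
    rcases lt_or_eq_of_le (show i ≤ w by omega) with h3 | h3
    · exact h1 i h3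
    · subst h3
      exact h2
  · intro h1
    exact ⟨fun i hi => h1 i (by omega), h1 w (by omega)⟩

variable (T : Submodule k (LaurentSeries k))

/-- elements of `T` of order `≥ w` -/
def V (w : ℤ) : Submodule k (LaurentSeries k) := T ⊓ GeS k w

theorem V_succ (w : ℤ) : V T w ⊓ LinearMap.ker (cf k w) = V T (w + 1) := by
  unfold V
  rw [inf_assoc, GeS_succ]

theorem V_fin (w : ℤ) (h : FiniteDimensional k (V T (w + 1))) : FiniteDimensional k (V T w) := by
  rw [← V_succ] at h
  have h1 : (V T w).FG := by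
    apply Submodule.fg_of_fg_map_of_fg_inf_ker (cf k w)
    · exact IsNoetherian.noetherian _
    · exact (Submodule.fg_iff_finiteDimensional _).2 h
  exact (Submodule.fg_iff_finiteDimensional _).1 h1

theorem V_le (w : ℤ) (h : FiniteDimensional k (V T (w + 1))) :
    Module.finrank k (V T w) ≤ Module.finrank k (V T (w + 1)) + 1 := by
  have := V_fin T w h
  have h1 := rn (cf k w) (V T w)
  rw [V_succ] at h1
  have h2 : Module.finrank k ((V T w).map (cf k w)) ≤ 1 := by
    have := Submodule.finrank_le ((V T w).map (cf k w))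
    simpa using this
  omega

theorem V_all (h : V T 1 = ⊥) (m : ℕ) : FiniteDimensional k (V T (1 - m)) := by
  induction m with
  | zero =>
    rw [Nat.cast_zero, sub_zero, h]
    infer_instance
  | succ m ih =>
    apply V_fin
    have e : (1 : ℤ) - ((m + 1 : ℕ) : ℤ) + 1 = 1 - m := by push_cast; ring
    rw [e]
    exact ih

theorem V_fin' (h : V T 1 = ⊥) (w : ℤ) : FiniteDimensional k (V T w) := by
  rcases le_or_gt w 1 with h1 | h1
  · have := V_all T h (1 - w).toNat
    have e : (1 : ℤ) - ((1 - w).toNat : ℤ) = w := by omega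
    rwa [e] at this
  · have h2 : V T w ≤ V T 1 := fun a ha => ⟨ha.1, fun i hi => ha.2 i (by omega)⟩
    have h3 : FiniteDimensional k (V T 1) := by rw [h]; infer_instance
    exact Submodule.finiteDimensional_of_le h2

theorem V_diff (h : V T 1 = ⊥) (w : ℤ) (m : ℕ) :
    Module.finrank k (V T (w - m)) ≤ Module.finrank k (V T w) + m := by
  induction m with
  | zero =>
    have e : w - ((0 : ℕ) : ℤ) = w := by simp
    rw [e]
    omega
  | succ m ih =>
    have h1 := V_le T (w - ((m + 1 : ℕ) : ℤ)) (V_fin' T h _)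
    have e : w - ((m + 1 : ℕ) : ℤ) + 1 = w - m := by push_cast; ring
    rw [e] at h1
    omega

/-- exact division -/
theorem Ge_div (hM : S_MUL) {u w : ℤ} {g r : LaurentSeries k} (hu : Ge u g) (hu' : g.coeff u ≠ 0)
    (h : Ge w (g * r)) : Ge (w - u) r := by
  by_cases hr : r = 0
  · subst hr
    intro i _
    simp
  have hv : Ge r.order r := fun i hi => HahnSeries.coeff_eq_zero_of_lt_order hi
  have hv' : r.coeff r.order ≠ 0 := fun h0 => hr (HahnSeries.coeff_order_eq_zero.1 h0)
  have h1 := (hM k u r.order g r hu hv).2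
  have h2 : w ≤ u + r.order := by
    by_contra hc
    have := h (u + r.order) (by omega)
    rw [this] at h1
    exact (mul_ne_zero hu' hv') h1.symm
  intro i hi
  exact hv i (by omega)

end lau

section main

variable {k : Type} [Field k]

/-- the linear map -/
noncomputable def sl (s : B k →+* LaurentSeries k) (hs : ∀ c, s (C c) = HahnSeries.C c) :
    B k →ₗ[k] LaurentSeries k where
  toFun := s
  map_add' := map_add s
  map_smul' c b := by
    rw [MvPolynomial.smul_eq_C_mul, map_mul, hs, HahnSeries.C_mul_eq_smul]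
    rfl

theorem sl_apply (s : B k →+* LaurentSeries k) (hs : ∀ c, s (C c) = HahnSeries.C c) (b : B k) :
    sl s hs b = s b := rfl

/-- multiplication by `g` -/
noncomputable def ml (g : LaurentSeries k) : LaurentSeries k →ₗ[k] LaurentSeries k where
  toFun r := g * r
  map_add' a b := mul_add g a b
  map_smul' c a := by
    rw [← HahnSeries.C_mul_eq_smul, ← HahnSeries.C_mul_eq_smul]
    simp only [RingHom.id_apply]
    ring

theorem core (hM : S_MUL) (s : B k →+* LaurentSeries k) (hs : ∀ c, s (C c) = HahnSeries.C c)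
    (f h : B k) (hf : ∀ b, s b = 0 ↔ f ∣ b) (hpos : ∀ b, Ge 1 (s b) → s b = 0)
    (c : ℕ) (low : ∀ m : ℕ, m ≤
      Module.finrank k (V (LinearMap.range (sl s hs)) (-(m : ℤ))) + c)
    (hfin : Module.Finite k (B k ⧸ Ideal.span {f, h})) (d : ℕ)
    (hd : Module.finrank k (B k ⧸ Ideal.span {f, h}) = d) (hh : s h ≠ 0) :
    Ge (-(d : ℤ)) (s h) ∧ (s h).coeff (-(d : ℤ)) ≠ 0 := by
  set T : Submodule k (LaurentSeries k) := LinearMap.range (sl s hs) with hT
  have memT : ∀ b, s b ∈ T := fun b => ⟨b, rfl⟩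
  have hV1 : V T 1 = ⊥ := by
    rw [eq_bot_iff]
    rintro r ⟨⟨b, rfl⟩, h2⟩
    exact hpos b h2
  -- the order of `s h`
  set u : ℤ := (s h).order with hu
  have hu1 : Ge u (s h) := fun i hi => HahnSeries.coeff_eq_zero_of_lt_order hi
  have hu2 : (s h).coeff u ≠ 0 := fun h0 => hh (HahnSeries.coeff_order_eq_zero.1 h0)
  have hu3 : u ≤ 0 := by
    by_contra hc
    exact hh (hpos h (Ge_mono (by omega) hu1))
  obtain ⟨d0, hd0⟩ : ∃ d0 : ℕ, u = -(d0 : ℤ) := ⟨(-u).toNat, by omega⟩
  -- the map to the quotient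
  obtain ⟨σ0, hσ0⟩ := (sl s hs).rangeRestrict.exists_rightInverse_of_surjective
    (LinearMap.range_rangeRestrict _)
  obtain ⟨σ, hσ⟩ := LinearMap.exists_extend σ0
  have hσ' : ∀ b, s (σ (s b)) = s b := by
    intro b
    have h1 : σ (s b) = σ0 ⟨s b, memT b⟩ := by
      rw [← hσ]; rfl
    have h2 := LinearMap.congr_fun hσ0 ⟨s b, memT b⟩
    have h3 := congrArg Subtype.val h2
    rw [h1]
    exact h3
  let π : B k →ₗ[k] (B k ⧸ Ideal.span {f, h}) :=
    (Ideal.Quotient.mkₐ k (Ideal.span {f, h})).toLinearMap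
  have hπ : ∀ b, π b = 0 ↔ b ∈ Ideal.span {f, h} := fun b => Ideal.Quotient.eq_zero_iff_mem
  let q : LaurentSeries k →ₗ[k] (B k ⧸ Ideal.span {f, h}) := π.comp σ
  have hq : ∀ b, q (s b) = π b := by
    intro b
    have h1 : s (σ (s b) - b) = 0 := by rw [map_sub, hσ' b, sub_self]
    have h2 : π (σ (s b) - b) = 0 := by
      rw [hπ]
      obtain ⟨a, ha⟩ := (hf _).1 h1
      rw [ha]
      exact Ideal.mul_mem_right _ _ (Ideal.subset_span (by simp))
    rw [map_sub, sub_eq_zero] at h2
    exact h2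
  have hsf : s f = 0 := (hf f).2 dvd_rfl
  have hJ : ∀ w, V T w ⊓ LinearMap.ker q = (V T (w - u)).map (ml (s h)) := by
    intro w
    ext r
    constructor
    · rintro ⟨⟨⟨b, hb⟩, h2⟩, h3⟩
      have hb' : s b = r := hb
      subst hb'
      have h4 : π b = 0 := by rw [← hq]; exact h3
      rw [hπ, Ideal.mem_span_pair] at h4
      obtain ⟨a, e, hae⟩ := h4
      have h5 : s b = s h * s e := by
        rw [← hae, map_add, map_mul, map_mul, hsf, mul_zero, zero_add, mul_comm]
      refine ⟨s e, ⟨memT e, ?_⟩, ?_⟩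
      · apply Ge_div hM hu1 hu2
        rw [← h5]
        exact h2
      · rw [h5]; rfl
    · rintro ⟨r', ⟨⟨b, hb⟩, h2⟩, h3⟩
      have hb' : s b = r' := hb
      subst hb'
      have h4 : s (h * b) = r := by rw [map_mul]; exact h3
      refine ⟨⟨by rw [← h4]; exact memT _, ?_⟩, ?_⟩
      · have h5 := (hM k u (w - u) (s h) (s b) hu1 h2).1
        have e : u + (w - u) = w := by ring
        rw [e] at h5
        rw [← h4, map_mul]
        exact h5
      · change q r = 0
        rw [← h4, hq, hπ]
        exact Ideal.mul_mem_right _ _ (Ideal.subset_span (by simp))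
  have hinj : Function.Injective (ml (s h)) := by
    intro a b hab
    exact mul_left_cancel₀ hh hab
  have key : ∀ w, Module.finrank k (V T w) =
      Module.finrank k ((V T w).map q) + Module.finrank k (V T (w - u)) := by
    intro w
    have := V_fin' T hV1 w
    rw [← rn q (V T w), hJ w,
      ((Submodule.equivMapOfInjective (ml (s h)) hinj
        (V T (w - u))).finrank_eq).symm]
  -- upper bound
  have up : ∀ N : ℕ, Module.finrank k (V T (-((N * d0 : ℕ) : ℤ))) ≤ N * d + 1 := by
    intro N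
    induction N with
    | zero =>
      have h1 := V_diff T hV1 1 1
      have e : (1 : ℤ) - ((1 : ℕ) : ℤ) = -((0 * d0 : ℕ) : ℤ) := by simp
      rw [e, hV1, finrank_bot] at h1
      omega
    | succ N ih =>
      have h1 := key (-(((N + 1) * d0 : ℕ) : ℤ))
      have e : -(((N + 1) * d0 : ℕ) : ℤ) - u = -((N * d0 : ℕ) : ℤ) := by
        rw [hd0]; push_cast; ring
      rw [e] at h1
      have h2 := Submodule.finrank_le ((V T (-(((N + 1) * d0 : ℕ) : ℤ))).map q)
      rw [hd] at h2
      have e2 : (N + 1) * d = N * d + d := by ring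
      omega
  have hle : d0 ≤ d := by
    by_contra hc
    push Not at hc
    have h1 := low ((c + 2) * d0)
    have h2 := up (c + 2)
    have h3 : (c + 2) * (d + 1) ≤ (c + 2) * d0 := Nat.mul_le_mul_left _ hc
    have h4 : (c + 2) * (d + 1) = (c + 2) * d + (c + 2) := by ring
    omega
  -- the other bound
  have hge : d ≤ d0 := by
    have bq := Module.finBasis k (B k ⧸ Ideal.span {f, h})
    have hlift : ∀ i, ∃ b : B k, π b = bq i := fun i => Ideal.Quotient.mk_surjective (bq i)
    choose b hb using hlift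
    obtain ⟨w0, hw0⟩ := (Set.finite_range (fun i => (s (b i)).order)).bddBelow
    have h1 : (V T w0).map q = ⊤ := by
      rw [eq_top_iff, ← bq.span_eq, Submodule.span_le]
      rintro _ ⟨i, rfl⟩
      refine ⟨s (b i), ⟨memT _, ?_⟩, ?_⟩
      · have h2 : w0 ≤ (s (b i)).order := hw0 ⟨i, rfl⟩
        intro j hj
        exact HahnSeries.coeff_eq_zero_of_lt_order (by omega)
      · rw [hq, hb]
    have h2 := key w0
    rw [h1, finrank_top, hd] at h2
    have h3 := V_diff T hV1 (w0 - u) d0
    have e : w0 - u - (d0 : ℤ) = w0 := by omega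
    rw [e] at h3
    omega
  have hdd : d = d0 := le_antisymm hge hle
  have e : -(d : ℤ) = u := by omega
  rw [e]
  exact ⟨hu1, hu2⟩

theorem Ge_pow (hM : S_MUL) {w : ℤ} {g : LaurentSeries k} (h : Ge w g) (j : ℕ) :
    Ge ((j : ℤ) * w) (g ^ j) := by
  induction j with
  | zero =>
    intro i hi
    rw [Nat.cast_zero, zero_mul] at hi
    rw [pow_zero, HahnSeries.coeff_one, if_neg (by omega)]
  | succ j ih =>
    have h1 := (hM k _ _ _ _ ih h).1
    have e : (j : ℤ) * w + w = ((j + 1 : ℕ) : ℤ) * w := by push_cast; ring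
    rw [e, ← pow_succ] at h1
    exact h1

theorem low1 (hM : S_MUL) (s : B k →+* LaurentSeries k) (hs : ∀ c, s (C c) = HahnSeries.C c)
    (e : B k →+* Polynomial (LaurentSeries k)) (n q : ℕ) (hn : 0 < n)
    (he0 : e (X 0) = Polynomial.C (HahnSeries.single (-(n : ℤ)) 1)) (he1 : e (X 1) = Polynomial.X)
    (heC : ∀ c, e (C c) = Polynomial.C (HahnSeries.C c))
    (f : B k) (hef : (e f).Monic) (hefd : (e f).natDegree = n)
    (hf : ∀ b, s b = 0 ↔ f ∣ b) (hpos : ∀ b, Ge 1 (s b) → s b = 0)
    (hs0 : s (X 0) = HahnSeries.single (-(n : ℤ)) 1) (hs1 : Ge (-(q : ℤ)) (s (X 1))) (N : ℕ) :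
    (N + 1) * n ≤
      Module.finrank k (V (LinearMap.range (sl s hs)) (-((n * N + q * n : ℕ) : ℤ))) := by
  set T : Submodule k (LaurentSeries k) := LinearMap.range (sl s hs) with hT
  have hV1 : V T 1 = ⊥ := by
    rw [eq_bot_iff]
    rintro r ⟨⟨b, rfl⟩, h2⟩
    exact hpos b h2
  have hfd := V_fin' T hV1 (-((n * N + q * n : ℕ) : ℤ))
  have mem : ∀ p : Fin (N + 1) × Fin n, s (X 0 ^ (p.1 : ℕ) * X 1 ^ (p.2 : ℕ)) ∈
      V T (-((n * N + q * n : ℕ) : ℤ)) := by
    intro p
    refine ⟨⟨_, rfl⟩, ?_⟩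
    change Ge _ (s _)
    rw [map_mul, map_pow, map_pow]
    have h0 : Ge (-(n : ℤ)) (s (X 0)) := by
      intro i hi
      rw [hs0, HahnSeries.coeff_single_of_ne (by omega)]
    have h1 := (hM k _ _ _ _ (Ge_pow hM h0 p.1) (Ge_pow hM hs1 p.2)).1
    refine Ge_mono ?_ h1
    have h2 : ((p.1 : ℕ) : ℤ) ≤ N := by have := p.1.isLt; omega
    have h3 : ((p.2 : ℕ) : ℤ) ≤ n := by have := p.2.isLt; omega
    have h4 : (n : ℤ) * (p.1 : ℕ) ≤ n * N := mul_le_mul_of_nonneg_left h2 (by positivity)
    have h5 : (q : ℤ) * (p.2 : ℕ) ≤ q * n := mul_le_mul_of_nonneg_left h3 (by positivity)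
    push_cast
    nlinarith
  have hli : LinearIndependent k (fun p : Fin (N + 1) × Fin n =>
      (⟨s (X 0 ^ (p.1 : ℕ) * X 1 ^ (p.2 : ℕ)), mem p⟩ :
        V T (-((n * N + q * n : ℕ) : ℤ)))) := by
    rw [Fintype.linearIndependent_iff]
    intro c hc p₀
    have hc' := congrArg Subtype.val hc
    rw [AddSubmonoidClass.coe_finsetSum] at hc'
    simp only [Submodule.coe_smul, ZeroMemClass.coe_zero] at hc'
    have h1 : s (∑ p : Fin (N + 1) × Fin n, C (c p) * (X 0 ^ (p.1 : ℕ) * X 1 ^ (p.2 : ℕ))) = 0 := by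
      rw [← hc', map_sum]
      refine Finset.sum_congr rfl fun p _ => ?_
      rw [map_mul, hs, HahnSeries.C_mul_eq_smul]
    obtain ⟨a, ha⟩ := (hf _).1 h1
    have h2 : e (∑ p : Fin (N + 1) × Fin n, C (c p) * (X 0 ^ (p.1 : ℕ) * X 1 ^ (p.2 : ℕ))) =
        ∑ p : Fin (N + 1) × Fin n, Polynomial.C (HahnSeries.single (-((n * p.1 : ℕ) : ℤ)) (c p)) *
          Polynomial.X ^ (p.2 : ℕ) := by
      rw [map_sum]
      refine Finset.sum_congr rfl fun p _ => ?_
      rw [map_mul, map_mul, map_pow, map_pow, heC, he0, he1, ← mul_assoc, ← Polynomial.C_pow,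
        ← Polynomial.C_mul, HahnSeries.single_pow, one_pow, HahnSeries.C_apply,
        HahnSeries.single_mul_single, mul_one, zero_add]
      congr 3
      push_cast
      simp only [nsmul_eq_mul]
      congr 1
      ring
    have h3 : e f ∣ e (∑ p : Fin (N + 1) × Fin n,
        C (c p) * (X 0 ^ (p.1 : ℕ) * X 1 ^ (p.2 : ℕ))) := by
      rw [ha, map_mul]
      exact dvd_mul_right _ _
    have h4 : (e (∑ p : Fin (N + 1) × Fin n,
        C (c p) * (X 0 ^ (p.1 : ℕ) * X 1 ^ (p.2 : ℕ)))).degree < n := by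
      rw [h2, ← Polynomial.mem_degreeLT]
      refine Submodule.sum_mem _ fun p _ => ?_
      rw [Polynomial.mem_degreeLT]
      refine lt_of_le_of_lt (Polynomial.degree_C_mul_X_pow_le _ _) ?_
      exact_mod_cast p.2.isLt
    have h5 : e (∑ p : Fin (N + 1) × Fin n,
        C (c p) * (X 0 ^ (p.1 : ℕ) * X 1 ^ (p.2 : ℕ))) = 0 := by
      apply Polynomial.eq_zero_of_dvd_of_degree_lt h3
      rw [Polynomial.degree_eq_natDegree hef.ne_zero, hefd]
      exact h4
    rw [h2] at h5
    have h6 := congrArg (fun P : Polynomial (LaurentSeries k) =>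
      (P.coeff (p₀.2 : ℕ)).coeff (-((n * p₀.1 : ℕ) : ℤ))) h5
    simp only [Polynomial.finsetSum_coeff, Polynomial.coeff_zero, HahnSeries.coeff_zero,
      HahnSeries.coeff_sum] at h6
    rw [Finset.sum_eq_single p₀] at h6
    · rw [Polynomial.coeff_C_mul, Polynomial.coeff_X_pow, if_pos rfl, mul_one,
        HahnSeries.coeff_single_same] at h6
      exact h6
    · intro p _ hp
      rw [Polynomial.coeff_C_mul, Polynomial.coeff_X_pow]
      by_cases h7 : (p₀.2 : ℕ) = p.2
      · rw [if_pos h7, mul_one, HahnSeries.coeff_single_of_ne]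
        intro h8
        apply hp
        have h9 : (n : ℤ) * (p₀.1 : ℕ) = n * (p.1 : ℕ) := by
          push_cast at h8
          linarith
        have h10 : ((p₀.1 : ℕ) : ℤ) = (p.1 : ℕ) := mul_left_cancel₀ (by positivity) h9
        ext
        · exact_mod_cast h10.symm
        · exact h7.symm
      · rw [if_neg h7, mul_zero, HahnSeries.coeff_zero]
    · intro h7
      exact absurd (Finset.mem_univ _) h7
  have h1 := hli.fintype_card_le_finrank
  rw [Fintype.card_prod, Fintype.card_fin, Fintype.card_fin] at h1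
  exact h1

theorem low2 (hM : S_MUL) (s : B k →+* LaurentSeries k) (hs : ∀ c, s (C c) = HahnSeries.C c)
    (e : B k →+* Polynomial (LaurentSeries k)) (n q : ℕ) (hn : 0 < n)
    (he0 : e (X 0) = Polynomial.C (HahnSeries.single (-(n : ℤ)) 1)) (he1 : e (X 1) = Polynomial.X)
    (heC : ∀ c, e (C c) = Polynomial.C (HahnSeries.C c))
    (f : B k) (hef : (e f).Monic) (hefd : (e f).natDegree = n)
    (hf : ∀ b, s b = 0 ↔ f ∣ b) (hpos : ∀ b, Ge 1 (s b) → s b = 0)
    (hs0 : s (X 0) = HahnSeries.single (-(n : ℤ)) 1) (hs1 : Ge (-(q : ℤ)) (s (X 1))) (m : ℕ) :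
    m ≤ Module.finrank k (V (LinearMap.range (sl s hs)) (-(m : ℤ))) + q * n := by
  rcases le_or_gt m (q * n) with h | h
  · omega
  have h1 := low1 hM s hs e n q hn he0 he1 heC f hef hefd hf hpos hs0 hs1 ((m - q * n) / n)
  have h2 : n * ((m - q * n) / n) ≤ m - q * n := Nat.mul_div_le _ _
  have h3 : m - q * n < ((m - q * n) / n + 1) * n := by
    have h4 := Nat.lt_mul_div_succ (m - q * n) hn
    have h5 : n * ((m - q * n) / n + 1) = ((m - q * n) / n + 1) * n := mul_comm _ _
    omega
  set T : Submodule k (LaurentSeries k) := LinearMap.range (sl s hs) with hT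
  have hV1 : V T 1 = ⊥ := by
    rw [eq_bot_iff]
    rintro r ⟨⟨b, rfl⟩, h2⟩
    exact hpos b h2
  have hfd := V_fin' T hV1 (-(m : ℤ))
  have h4 : V T (-((n * ((m - q * n) / n) + q * n : ℕ) : ℤ)) ≤ V T (-(m : ℤ)) := by
    rintro a ⟨ha1, ha2⟩
    exact ⟨ha1, Ge_mono (by omega) ha2⟩
  have h5 := Submodule.finrank_mono h4
  omega

end main

section fin

variable (k : Type) [Field k] [IsAlgClosed k] [CharZero k]

theorem dim : S_DIM k := by
  intro hM hSP n f φ ζ hOP _ hker hpos h d hfin hd hh
  obtain ⟨R, hR⟩ := hSP 0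
  have hR1 : ∀ (i : ℤ) (p : Polynomial k), R (HahnSeries.single i p) =
      HahnSeries.single i (p.eval 0) := by
    intro i p
    rw [hR]
    unfold sp
    ext j
    simp only [HahnSeries.map_coeff, HahnSeries.coeff_single]
    split_ifs <;> simp
  have hC : ∀ c : k, algebraMap k (L k) c = HahnSeries.single 0 (Polynomial.C c) := by
    intro c
    rw [HahnSeries.algebraMap_apply', PowerSeries.algebraMap_apply, HahnSeries.ofPowerSeries_C]
    rfl
  let s : B k →+* LaurentSeries k := R.comp (ev n φ).toRingHom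
  have hs' : ∀ b, s b = sp 0 (ev n φ b) := fun b => hR _
  have hs : ∀ c, s (C c) = HahnSeries.C c := by
    intro c
    change R (ev n φ (C c)) = _
    have h1 : ev n φ (C c) = algebraMap k (L k) c := (ev n φ).commutes c
    rw [h1, hC, hR1, Polynomial.eval_C]
    rfl
  let e : B k →+* Polynomial (LaurentSeries k) := (Polynomial.mapRingHom R).comp (evY n).toRingHom
  have heC : ∀ c, e (C c) = Polynomial.C (HahnSeries.C c) := by
    intro c
    change (evY n (C c)).map R = _
    have h1 : evY n (C c) = algebraMap k (Polynomial (L k)) c := (evY n).commutes c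
    rw [h1, Polynomial.algebraMap_apply, hC, Polynomial.map_C, hR1, Polynomial.eval_C]
    rfl
  have he0 : e (X 0) = Polynomial.C (HahnSeries.single (-(n : ℤ)) 1) := by
    change (evY n (X 0)).map R = _
    unfold evY tp
    rw [aeval_X, Matrix.cons_val_zero, Polynomial.map_C, hR1, Polynomial.eval_one]
  have he1 : e (X 1) = Polynomial.X := by
    change (evY n (X 1)).map R = _
    unfold evY
    rw [aeval_X]
    simp
  have hs0 : s (X 0) = HahnSeries.single (-(n : ℤ)) 1 := by
    change R (ev n φ (X 0)) = _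
    unfold ev tp
    rw [aeval_X, Matrix.cons_val_zero, hR1, Polynomial.eval_one]
  obtain ⟨hn, _, hprod⟩ := hOP
  have hef : e f = ∏ i ∈ Finset.range n, (Polynomial.X - Polynomial.C (R (rot (ζ ^ i) φ))) := by
    have h1 := congrArg (Polynomial.map R) hprod
    rw [Polynomial.map_sub, Polynomial.map_C, Polynomial.map_prod] at h1
    have h2 : R lam = 0 := by
      unfold lam
      rw [hR1, Polynomial.eval_X, HahnSeries.single_eq_zero]
    rw [h2, Polynomial.C_0, sub_zero] at h1
    change (evY n f).map R = _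
    rw [h1]
    refine Finset.prod_congr rfl fun i _ => ?_
    rw [Polynomial.map_sub, Polynomial.map_X, Polynomial.map_C]
  have hmon : (e f).Monic := by
    rw [hef]
    exact Polynomial.monic_prod_of_monic _ _ fun i _ => Polynomial.monic_X_sub_C _
  have hdeg : (e f).natDegree = n := by
    rw [hef, Polynomial.natDegree_prod_of_monic _ _ fun i _ => Polynomial.monic_X_sub_C _]
    simp
  have hf : ∀ b, s b = 0 ↔ f ∣ b := by
    intro b
    rw [hs', hker b, C_0, sub_zero]
  have hpos' : ∀ b, Ge 1 (s b) → s b = 0 := by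
    intro b hb
    rw [hs'] at hb ⊢
    exact hpos b hb
  have hs1 : Ge (-(((-(s (X 1)).order).toNat : ℕ) : ℤ)) (s (X 1)) := by
    intro i hi
    exact HahnSeries.coeff_eq_zero_of_lt_order (by omega)
  have low := low2 hM s hs e n _ hn he0 he1 heC f hmon hdeg hf hpos' hs0 hs1
  have h1 := core hM s hs f h hf hpos' _ low hfin d hd (by rw [hs']; exact hh)
  rw [hs'] at h1
  exact h1

end fin

end Pool.Agent.H663R5.OPCDIM
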