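import Mathlib
import Pool.Agent.H922R2.OPC.Stubs

/-! SPP. -/

set_option autoImplicit false

namespace Pool.Agent.H663R5.OPCSPP

open Pool.Agent.H922R2.OPC

theorem Ge_zero' {R : Type} [Zero R] (w : ℤ) : Ge w (0 : LaurentSeries R) := by
  intro i _
  exact HahnSeries.coeff_zero

theorem prgA (R : Type) [CommRing R] (hM : S_MUL) (n : ℕ) (s : ℕ → LaurentSeries R) (w : ℤ)
    (hs : ∀ i < n, Ge w (s i)) : ∀ l : ℕ,
    (l ≤ n → Ge (((n : ℤ) - l) * w)
      ((∏ i ∈ Finset.range n, (Polynomial.X - Polynomial.C (s i))).coeff l)) ∧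
    (n < l → (∏ i ∈ Finset.range n, (Polynomial.X - Polynomial.C (s i))).coeff l = 0) := by
  induction n with
  | zero =>
    intro l
    constructor
    · intro hl
      have : l = 0 := by omega
      subst this
      intro i hi
      simp only [Nat.cast_zero, sub_zero, zero_mul] at hi
      rw [Finset.range_zero, Finset.prod_empty, Polynomial.coeff_one_zero, HahnSeries.coeff_one,
        if_neg (by omega)]
    · intro hl
      rw [Finset.range_zero, Finset.prod_empty, Polynomial.coeff_one, if_neg (by omega)]
  | succ n ih =>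
    have ih' := ih (fun i hi => hs i (by omega))
    intro l
    set p := ∏ i ∈ Finset.range n, (Polynomial.X - Polynomial.C (s i)) with hp
    rw [Finset.prod_range_succ, ← hp]
    have hsub : ∀ (v : ℤ) (a b : LaurentSeries R), Ge v a → Ge v b → Ge v (a - b) := by
      intro v a b ha hb i hi
      rw [HahnSeries.coeff_sub, ha i hi, hb i hi, sub_zero]
    have h2 : l ≤ n + 1 → Ge ((((n + 1 : ℕ) : ℤ) - l) * w) (p.coeff l * s n) := by
      intro hl
      rcases Nat.lt_or_ge n l with h | h
      · rw [(ih' l).2 h, zero_mul]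
        exact Ge_zero' _
      · have h3 := (hM _ _ _ _ _ ((ih' l).1 h) (hs n (by omega))).1
        have e : ((n : ℤ) - l) * w + w = (((n + 1 : ℕ) : ℤ) - l) * w := by push_cast; ring
        rw [e] at h3
        exact h3
    cases l with
    | zero =>
      have e0 : (p * (Polynomial.X - Polynomial.C (s n))).coeff 0 = 0 - p.coeff 0 * s n := by
        rw [Polynomial.mul_coeff_zero]
        simp only [Polynomial.coeff_sub, Polynomial.coeff_X_zero, Polynomial.coeff_C_zero]
        ring
      rw [e0]
      constructor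
      · intro hl
        exact hsub _ _ _ (Ge_zero' _) (h2 (by omega))
      · intro hl; omega
    | succ l =>
      rw [Polynomial.coeff_mul_X_sub_C]
      constructor
      · intro hl
        refine hsub _ _ _ ?_ (h2 (by omega))
        have h3 := (ih' l).1 (by omega)
        have e : (((n + 1 : ℕ) : ℤ) - ((l + 1 : ℕ) : ℤ)) * w = ((n : ℤ) - l) * w := by
          push_cast; ring
        rw [e]
        exact h3
      · intro hl
        rw [(ih' l).2 (by omega), (ih' (l + 1)).2 (by omega), zero_mul, sub_zero]

section pos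

variable (k : Type) [Field k] [IsAlgClosed k] [CharZero k]

theorem neg (n : ℕ) (g : B k) : ∀ w : ℤ, 0 < w →
    (MvPolynomial.aeval ![tp (-(n : ℤ)), (lam : L k)] g : L k).coeff w = 0 := by
  induction g using MvPolynomial.induction_on with
  | C a =>
    intro w hw
    have h : (MvPolynomial.aeval ![tp (-(n : ℤ)), (lam : L k)] (MvPolynomial.C a) : L k) =
        algebraMap k (L k) a := (MvPolynomial.aeval ![tp (-(n : ℤ)), (lam : L k)]).commutes a
    rw [h, HahnSeries.algebraMap_apply', PowerSeries.algebraMap_apply, HahnSeries.ofPowerSeries_C]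
    change (HahnSeries.single (0 : ℤ) _).coeff w = 0
    rw [HahnSeries.coeff_single_of_ne (by omega)]
  | add p q hp hq =>
    intro w hw
    rw [map_add, HahnSeries.coeff_add, hp w hw, hq w hw, add_zero]
  | mul_X p j hp =>
    intro w hw
    rw [map_mul, MvPolynomial.aeval_X]
    fin_cases j
    · change (_ * tp (-(n : ℤ))).coeff w = 0
      unfold tp
      have h := HahnSeries.coeff_mul_single_add (r := (1 : Polynomial k))
        (x := (MvPolynomial.aeval ![tp (-(n : ℤ)), (lam : L k)] p : L k)) (a := w + n)
        (b := -(n : ℤ))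
      have e : w + n + -(n : ℤ) = w := by ring
      rw [e] at h
      unfold tp at h
      rw [h]
      have h2 := hp (w + n) (by omega)
      unfold tp at h2
      rw [h2, zero_mul]
    · change (_ * lam).coeff w = 0
      unfold lam
      have h := HahnSeries.coeff_mul_single_add (r := (Polynomial.X : Polynomial k))
        (x := (MvPolynomial.aeval ![tp (-(n : ℤ)), (lam : L k)] p : L k)) (a := w)
        (b := (0 : ℤ))
      rw [add_zero] at h
      unfold lam at h
      rw [h]
      have h2 := hp w hw
      unfold lam at h2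
      rw [h2, zero_mul]

theorem spp (hMON : S_MON k) : S_SPP k := by
  intro hM hSP hRot hEVF _ hCHR' n f φ ζ hOP μ h hh
  have hCHR := hCHR' hRot hEVF hMON
  have hev := hEVF n f φ ζ hOP
  have hn := hOP.1
  have hζ := hOP.2.1
  obtain ⟨R, hR⟩ := hSP μ
  have hcf : ∀ (x : L k) (i : ℤ), (R x).coeff i = (x.coeff i).eval μ := by
    intro x i
    rw [hR]
    rfl
  have hrot : ∀ i < n, Ge 1 (R (rot (ζ ^ i) (ev n φ h))) := by
    intro i _ j hj
    rw [hcf]
    change (Polynomial.C ((ζ ^ i) ^ j) * (ev n φ h).coeff j).eval μ = 0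
    have h1 : ((ev n φ h).coeff j).eval μ = 0 := by
      rw [← hcf, hR]
      exact hh j hj
    rw [Polynomial.eval_mul, h1, mul_zero]
  set p₀ := ∏ i ∈ Finset.range n, (Polynomial.X - Polynomial.C (rot (ζ ^ i) (ev n φ h))) with hp₀
  set p := ∏ i ∈ Finset.range n, (Polynomial.X - Polynomial.C (R (rot (ζ ^ i) (ev n φ h)))) with hp
  have hpp : p = p₀.map R := by
    rw [hp, hp₀, Polynomial.map_prod]
    refine Finset.prod_congr rfl fun i _ => ?_
    rw [Polynomial.map_sub, Polynomial.map_X, Polynomial.map_C]
  have h1 : ∀ l < n, p.coeff l = 0 := by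
    intro l hl
    have h2 := (prgA k hM n (fun i => R (rot (ζ ^ i) (ev n φ h))) 1 hrot l).1 hl.le
    obtain ⟨g, hg⟩ := hCHR n f φ ζ hOP h l
    have h3 : ev n φ (MvPolynomial.aeval ![MvPolynomial.X 0, f] g) =
        (MvPolynomial.aeval ![tp (-(n : ℤ)), (lam : L k)] g : L k) := by
      rw [← AlgHom.comp_apply]
      congr 1
      apply MvPolynomial.algHom_ext
      intro i
      rw [AlgHom.comp_apply, MvPolynomial.aeval_X, MvPolynomial.aeval_X]
      fin_cases i
      · simp [ev]
      · simp only [Fin.mk_one, Matrix.cons_val_one]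
        exact hev
    have h4 : p₀.coeff l = (MvPolynomial.aeval ![tp (-(n : ℤ)), (lam : L k)] g : L k) := by
      rw [← h3]; exact hg
    have h5 : Ge (((n : ℤ) - l) * 1) (p.coeff l) := h2
    ext1
    funext w
    rw [HahnSeries.coeff_zero]
    rcases le_or_gt w 0 with hw | hw
    · exact h5 w (by omega)
    · rw [hpp, Polynomial.coeff_map, hcf, h4, neg k n g w hw, Polynomial.eval_zero]
  have h2 : p = Polynomial.X ^ n := by
    have hm : p.Monic := Polynomial.monic_prod_of_monic _ _ fun i _ => Polynomial.monic_X_sub_C _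
    have hd : p.natDegree = n := by
      rw [hp, Polynomial.natDegree_prod_of_monic _ _ fun i _ => Polynomial.monic_X_sub_C _]
      simp
    ext1 l
    rw [Polynomial.coeff_X_pow]
    rcases lt_trichotomy l n with h3 | h3 | h3
    · rw [h1 l h3, if_neg (by omega)]
    · rw [h3, if_pos rfl, ← hd]
      exact hm.coeff_natDegree
    · rw [if_neg (by omega)]
      exact Polynomial.coeff_eq_zero_of_natDegree_lt (by omega)
  have h3 : p.eval (R (ev n φ h)) = 0 := by
    rw [hp, Polynomial.eval_prod]
    apply Finset.prod_eq_zero (Finset.mem_range.2 hn)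
    have h4 : rot (ζ ^ 0) (ev n φ h) = ev n φ h := by
      ext1
      funext j
      change Polynomial.C ((ζ ^ 0) ^ j) * (ev n φ h).coeff j = _
      rw [pow_zero, one_zpow, Polynomial.C_1, one_mul]
    rw [h4]
    simp
  rw [h2, Polynomial.eval_pow, Polynomial.eval_X] at h3
  rw [← hR]
  exact pow_eq_zero_iff hn.ne' |>.1 h3

end pos

end Pool.Agent.H663R5.OPCSPP
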